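import Pool.Agent.Helper65.FX.St

/-!
# Project FX (MP_3bffab_ag), module ENU: the span of the velocities of a finite family of flows.
-/

set_option autoImplicit false

namespace Pool.Agent.Helper4.FX

open Pool.Agent.Helper65.FX Pool.Agent.Helper87.FX

theorem hENU : StENU := by
  intro V _ _ _ N e y v
  constructor
  · intro hv
    unfold spn at hv
    induction hv using Submodule.span_induction with
    | mem x hx =>
      simp only [Set.mem_iUnion, Set.mem_range, exists_prop] at hx
      obtain ⟨f, ⟨k, rfl⟩, a, rfl⟩ := hx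
      refine ⟨Pi.single k a, ?_⟩
      rw [Finset.sum_eq_single k]
      · rw [Pi.single_eq_same]
      · intro b _ hb
        rw [Pi.single_eq_of_ne hb, map_zero]
      · intro h
        exact absurd (Finset.mem_univ k) h
    | zero => exact ⟨0, by simp⟩
    | add x x' _ _ hx hx' =>
      obtain ⟨c, hc⟩ := hx
      obtain ⟨c', hc'⟩ := hx'
      refine ⟨c + c', ?_⟩
      rw [hc, hc', ← Finset.sum_add_distrib]
      refine Finset.sum_congr rfl fun k _ => ?_
      rw [Pi.add_apply, map_add]
    | smul a x _ hx =>
      obtain ⟨c, hc⟩ := hx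
      refine ⟨a • c, ?_⟩
      rw [hc, Finset.smul_sum]
      refine Finset.sum_congr rfl fun k _ => ?_
      rw [Pi.smul_apply, map_smul]
  · rintro ⟨c, rfl⟩
    refine Submodule.sum_mem _ fun k _ => ?_
    apply Submodule.subset_span
    simp only [Set.mem_iUnion, Set.mem_range, exists_prop]
    exact ⟨e k, ⟨k, rfl⟩, c k, rfl⟩

end Pool.Agent.Helper4.FX
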