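import Pool.Agent.Helper41.FX.StK2

/-!
# Project FX (MP_3bffab_ag), chapter K, module PMP: transport of CKQ along PMQ.
-/

set_option autoImplicit false

namespace Pool.Agent.Helper4.FX

open Polynomial Pool.Agent.Helper72.FX Pool.Agent.Helper41.FX

/-- an equivalence induces an equivalence of cokernels -/
private def ckE {R : Type} [CommRing R] (p : R) {M N : Type} [AddCommGroup M] [Module R M]
    [AddCommGroup N] [Module R N] (e : M ≃ₗ[R] N) : Ck p M ≃ₗ[R] Ck p N :=
  Submodule.Quotient.equiv _ _ e (by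
    ext y
    constructor
    · rintro ⟨_, ⟨z, rfl⟩, rfl⟩
      exact ⟨e z, (map_smul e p z).symm⟩
    · rintro ⟨z, rfl⟩
      refine ⟨p • e.symm z, ⟨e.symm z, rfl⟩, ?_⟩
      have h : e (p • e.symm z) = p • e (e.symm z) := map_smul e p _
      rw [e.apply_symm_apply] at h
      exact h)

/-- an equivalence carries over that the kernel is trivial -/
private theorem knE {R : Type} [CommRing R] (p : R) {M N : Type} [AddCommGroup M] [Module R M]
    [AddCommGroup N] [Module R N] (e : M ≃ₗ[R] N) (h : Subsingleton (Kn p N)) :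
    Subsingleton (Kn p M) := by
  have key : ∀ x : Kn p M, (x : M) = 0 := by
    intro x
    have hx : p • (x : M) = 0 := x.2
    have h1 : p • e (x : M) = 0 := by
      rw [← map_smul, hx, map_zero]
    have h2 : (⟨e (x : M), h1⟩ : Kn p N) = 0 := h.elim _ _
    have h3 : e (x : M) = 0 := congrArg Subtype.val h2
    exact e.map_eq_zero_iff.mp h3
  refine ⟨fun x y => Subtype.ext ?_⟩
  rw [key x, key y]

theorem hPMP : StPMQ → StCKQ → StPMP := by
  intro hPMQ hCKQ A _ J p
  obtain ⟨e⟩ := hPMQ A J
  obtain ⟨⟨g⟩, h2⟩ := hCKQ A[X] (J.map (C : A →+* A[X])) p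
  exact ⟨⟨(ckE p e).trans g⟩, fun h => knE p e (h2 h)⟩

end Pool.Agent.Helper4.FX
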