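import Pool.Agent.Helper84.FX.StX

/-!
# Project FX (MP_3bffab_ag), chapter T, module Y0: the part `U = 0`.
-/

set_option autoImplicit false

namespace Pool.Agent.Helper4.FX

open Set Pool.Agent.Helper84.FX Pool.Agent.Helper72.FX

private theorem pr10_eq (z : Fin 12 → ℂ) : pr10 z = fun i => z (Fin.castLE (by norm_num) i) := by
  funext i
  fin_cases i <;> rfl

/-- the section of `pr10` -/
private noncomputable def sec (z : Fin 10 → ℂ) : Fin 12 → ℂ :=
  fun j => if h : j.val < 10 then z ⟨j.val, h⟩ else 0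

private theorem pr10_cont : Continuous pr10 := by
  have h : pr10 = fun z : Fin 12 → ℂ => fun i : Fin 10 => z (Fin.castLE (by norm_num) i) :=
    funext pr10_eq
  rw [h]
  exact continuous_pi fun i => continuous_apply _

private theorem sec_cont : Continuous sec := by
  refine continuous_pi fun j => ?_
  unfold sec
  by_cases h : j.val < 10
  · simp only [dif_pos h]
    exact continuous_apply _
  · simp only [dif_neg h]
    exact continuous_const

private theorem pr10_sec (z : Fin 10 → ℂ) : pr10 (sec z) = z := by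
  rw [pr10_eq]
  funext i
  have h : (Fin.castLE (by norm_num : 10 ≤ 12) i).val < 10 := i.2
  simp only [sec, dif_pos h]
  rfl

/-- part (iii): `q ↦ pr10 q.2` is a weak equivalence -/
private theorem part3 (hHEQ : StHEQ) (U : Set ℂ) :
    WE {q : ℂ × (Fin 12 → ℂ) | q.2 2 ∈ U ∧ q.1 = 0} (C10 U) (fun q => pr10 q.2) := by
  refine hHEQ _ _ _ _ (fun q : ℂ × (Fin 12 → ℂ) => pr10 q.2) (fun z => ((0 : ℂ), sec z))
    ?_ ?_ ?_ ?_
  · refine ⟨(pr10_cont.comp continuous_snd).continuousOn, ?_⟩
    rintro ⟨c, z⟩ ⟨h1, h2⟩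
    exact h1
  · refine ⟨(continuous_const.prodMk sec_cont).continuousOn, ?_⟩
    intro z hz
    refine ⟨?_, rfl⟩
    have h1 : sec z 2 = z 2 := rfl
    change sec z 2 ∈ U
    rw [h1]
    exact hz
  · refine ⟨fun p => ((0 : ℂ), fun j : Fin 12 => if j.val < 10 then p.2.2 j else (p.1 : ℂ) * p.2.2 j),
      ⟨?_, ?_⟩, ?_, ?_⟩
    · refine Continuous.continuousOn (continuous_const.prodMk (continuous_pi fun j => ?_))
      by_cases h : j.val < 10
      · simp only [if_pos h]
        fun_prop
      · simp only [if_neg h]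
        fun_prop
    · rintro ⟨s, c, z⟩ ⟨_, h1, h2⟩
      refine ⟨?_, rfl⟩
      exact h1
    · rintro ⟨c, z⟩ ⟨h1, h2⟩
      refine Prod.ext rfl ?_
      funext j
      by_cases h : j.val < 10
      · simp only [if_pos h, Function.comp, sec, dif_pos h]
        rw [pr10_eq]
        rfl
      · simp only [if_neg h, Function.comp, sec, dif_neg h]
        simp
    · rintro ⟨c, z⟩ ⟨h1, h2⟩
      refine Prod.ext h2.symm ?_
      funext j
      by_cases h : j.val < 10
      · simp only [if_pos h]
        rfl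
      · simp only [if_neg h]
        simp
  · refine ⟨fun p => p.2, ⟨continuous_snd.continuousOn, fun p hp => hp.2⟩, ?_, ?_⟩
    · intro z _
      exact (pr10_sec z).symm
    · intro z _
      rfl

/-- part (i): `y ↦ z` is a weak equivalence -/
private theorem part1 (hHEQ : StHEQ) (hEV : StEV) (U : Set ℂ) :
    WE {y | y ∈ YU U ∧ y (Sum.inl 0) = 0} (HH U) (fun y => fun j => y (Sum.inr j)) := by
  refine hHEQ _ _ _ _ (fun y : Fin 2 ⊕ Fin 12 → ℂ => fun j => y (Sum.inr j))
    (fun z => Sum.elim (fun _ => (0 : ℂ)) z) ?_ ?_ ?_ ?_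
  · refine ⟨Continuous.continuousOn (continuous_pi fun j => continuous_apply _), ?_⟩
    rintro y ⟨⟨h1, h2⟩, h3⟩
    refine ⟨h2, ?_⟩
    have h4 : y (Sum.inl 0) * y (Sum.inl 1) = MvPolynomial.eval (fun j => y (Sum.inr j)) FP := h1
    rw [h3, zero_mul, hEV] at h4
    exact h4.symm
  · refine ⟨Continuous.continuousOn (continuous_pi fun i => ?_), ?_⟩
    · rcases i with i | j
      · exact continuous_const
      · exact continuous_apply j
    · rintro z ⟨h1, h2⟩
      refine ⟨⟨?_, h1⟩, rfl⟩
      change (0 : ℂ) * 0 = MvPolynomial.eval z FP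
      rw [hEV, h2, zero_mul]
  · refine ⟨fun p => Sum.elim (fun i => (p.1 : ℂ) * p.2 (Sum.inl i)) (fun j => p.2 (Sum.inr j)),
      ⟨?_, ?_⟩, ?_, ?_⟩
    · refine Continuous.continuousOn (continuous_pi fun i => ?_)
      rcases i with i | j
      · simp only [Sum.elim_inl]
        fun_prop
      · simp only [Sum.elim_inr]
        fun_prop
    · rintro ⟨s, y⟩ ⟨_, ⟨h1, h2⟩, h3⟩
      have h4 : y (Sum.inl 0) * y (Sum.inl 1) = MvPolynomial.eval (fun j => y (Sum.inr j)) FP := h1
      have h3' : y (Sum.inl 0) = 0 := h3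
      rw [h3', zero_mul] at h4
      refine ⟨⟨?_, h2⟩, ?_⟩
      · change (s : ℂ) * y (Sum.inl 0) * ((s : ℂ) * y (Sum.inl 1)) =
          MvPolynomial.eval (fun j => y (Sum.inr j)) FP
        rw [h3', mul_zero, zero_mul]
        exact h4
      · change (s : ℂ) * y (Sum.inl 0) = 0
        rw [h3', mul_zero]
    · rintro y _
      funext i
      rcases i with i | j
      · simp
      · simp
    · rintro y _
      funext i
      rcases i with i | j
      · simp
      · simp
  · refine ⟨fun p => p.2, ⟨continuous_snd.continuousOn, fun p hp => hp.2⟩, ?_, ?_⟩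
    · intro z _
      rfl
    · intro z _
      rfl

theorem hY0 : StHEQ → StCMP → StCN2 → StCGR → StT6 → StEV → StKSM → StY0 := by
  intro hHEQ hCMP hCN2 _ hT6 hEV _ U hU
  have h1 := part1 hHEQ hEV U
  have h2 := hCMP _ _ _ _ _ _ _ _ h1 (hT6 U hU)
  have h3 := part3 hHEQ U
  refine hCN2 _ _ _ _ _ _ toY (fun q => pr10 q.2) ⟨?_, ?_⟩ h3 h2
  · refine Continuous.continuousOn ?_
    unfold toY
    exact (continuous_apply _).prodMk (continuous_pi fun j => continuous_apply _)
  · rintro y ⟨⟨_, h5⟩, h6⟩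
    exact ⟨h5, h6⟩

end Pool.Agent.Helper4.FX
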